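import Mathlib

open Cardinal

namespace Pool.Agent.Results.MP_a662a5_lc.QuadraticLowerBound



/-- dual numbers, as a plain ring without algebra instances -/
def DN : Type := TrivSqZeroExt ℝ ℝ

noncomputable instance : CommRing DN := inferInstanceAs (CommRing (TrivSqZeroExt ℝ ℝ))

noncomputable def DN.fstHom : DN →+* ℝ := (TrivSqZeroExt.fstHom ℝ ℝ ℝ).toRingHom
noncomputable def DN.inlHom : ℝ →+* DN := (TrivSqZeroExt.inlHom ℝ ℝ)
noncomputable def DN.mk (a b : ℝ) : DN := (a, b)
noncomputable def DN.snd (x : DN) : ℝ := TrivSqZeroExt.snd x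

theorem DN.fst_mk (a b : ℝ) : DN.fstHom (DN.mk a b) = a := rfl
theorem DN.snd_mk (a b : ℝ) : DN.snd (DN.mk a b) = b := rfl
theorem DN.fst_inl (a : ℝ) : DN.fstHom (DN.inlHom a) = a := rfl
theorem DN.snd_inl (a : ℝ) : DN.snd (DN.inlHom a) = 0 := rfl
theorem DN.snd_add (x y : DN) : DN.snd (x + y) = DN.snd x + DN.snd y := rfl
theorem DN.snd_mul (x y : DN) :
    DN.snd (x * y) = DN.fstHom x * DN.snd y + DN.fstHom y * DN.snd x := by
  refine (TrivSqZeroExt.snd_mul (R := ℝ) (M := ℝ) x y).trans ?_
  rw [mul_comm (DN.fstHom y)]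
  rfl
theorem DN.eq_zero {x : DN} (h1 : DN.fstHom x = 0) (h2 : DN.snd x = 0) : x = 0 :=
  TrivSqZeroExt.ext h1 h2

open scoped IntermediateField.algebraAdjoinAdjoin in
theorem exists_derivation_of_basis {K : Type} [Field K] [Algebra K ℝ] {ι : Type}
    {b : ι → ℝ} (hb : IsTranscendenceBasis K b) (w : ι → ℝ) :
    ∃ D : Derivation ℤ ℝ ℝ, (∀ c : K, D (algebraMap K ℝ c) = 0) ∧ ∀ i, D (b i) = w i := by
  have h1 : Algebra.FormallySmooth (Algebra.adjoin K (Set.range b))
    (IntermediateField.adjoin K (Set.range b)) := .of_isLocalization (nonZeroDivisors _)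
  have h2 : Algebra.IsAlgebraic (IntermediateField.adjoin K (Set.range b)) ℝ :=
    hb.isAlgebraic_field
  have h3 : Algebra.FormallyEtale (IntermediateField.adjoin K (Set.range b)) ℝ :=
    have : CharZero K := (algebraMap K ℝ).charZero
    Algebra.FormallyEtale.of_isSeparable _ _
  have h4 : Algebra.FormallySmooth (Algebra.adjoin K (Set.range b)) ℝ :=
    .comp _ (IntermediateField.adjoin K (Set.range b)) _
  let e := hb.1.aevalEquiv
  let φ : MvPolynomial ι K →+* DN :=
    MvPolynomial.eval₂Hom (DN.inlHom.comp (algebraMap K ℝ)) (fun i => DN.mk (b i) (w i))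
  let ψ : Algebra.adjoin K (Set.range b) →+* DN := φ.comp (e.symm : _ →+* _)
  let _ : Algebra (Algebra.adjoin K (Set.range b)) DN := ψ.toAlgebra
  have hφ : DN.fstHom.comp φ = (MvPolynomial.aeval (R := K) b).toRingHom := by
    apply MvPolynomial.ringHom_ext
    · intro r
      simp [φ, DN.fst_inl]
    · intro i
      simp [φ, DN.fst_mk]
  have hψ : ∀ a : Algebra.adjoin K (Set.range b), DN.fstHom (ψ a) = (a : ℝ) := by
    intro a
    obtain ⟨p, rfl⟩ := e.surjective a
    have : ψ (e p) = φ p := by simp [ψ]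
    rw [this]
    have := congrArg (fun f => f p) hφ
    simp only [RingHom.comp_apply] at this
    rw [this]
    simp [e]
  let g : DN →ₐ[Algebra.adjoin K (Set.range b)] ℝ :=
    { DN.fstHom with
      commutes' := fun a => hψ a }
  have hg : Function.Surjective g := fun x => ⟨DN.mk x 0, rfl⟩
  have hg' : IsNilpotent (RingHom.ker (g : DN →+* ℝ)) := by
    refine ⟨2, ?_⟩
    rw [pow_two, Ideal.zero_eq_bot, eq_bot_iff, Ideal.mul_le]
    intro x hx y hy
    have hx' : DN.fstHom x = 0 := hx
    have hy' : DN.fstHom y = 0 := hy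
    rw [Ideal.mem_bot]
    apply DN.eq_zero
    · rw [map_mul, hx', zero_mul]
    · rw [DN.snd_mul, hx', hy']; simp
  let h : ℝ →ₐ[Algebra.adjoin K (Set.range b)] DN :=
    Algebra.FormallySmooth.liftOfSurjective (AlgHom.id _ _) g hg hg'
  have hh : ∀ x, DN.fstHom (h x) = x := fun x =>
    Algebra.FormallySmooth.liftOfSurjective_apply (AlgHom.id _ _) g hg hg' x
  have hcomm : ∀ a : Algebra.adjoin K (Set.range b), h (a : ℝ) = ψ a := fun a => h.commutes a
  refine ⟨⟨⟨⟨fun x => DN.snd (h x), ?_⟩, ?_⟩, ?_, ?_⟩, ?_, ?_⟩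
  · intro x y
    change DN.snd (h (x + y)) = _
    rw [map_add, DN.snd_add]
  · intro n x
    have : ∀ y z : ℝ, DN.snd (h (y + z)) = DN.snd (h y) + DN.snd (h z) := by
      intro y z; rw [map_add, DN.snd_add]
    exact map_zsmul (AddMonoidHom.mk' (fun x => DN.snd (h x)) this) n x
  · change DN.snd (h 1) = 0
    rw [map_one]; rfl
  · intro x y
    change DN.snd (h (x * y)) = x * DN.snd (h y) + y * DN.snd (h x)
    rw [map_mul, DN.snd_mul, hh, hh]
  · intro c
    change DN.snd (h _) = 0
    have h5 := hcomm (algebraMap K _ c)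
    have h6 : ((algebraMap K (Algebra.adjoin K (Set.range b)) c : _) : ℝ) = algebraMap K ℝ c := rfl
    rw [h6] at h5
    rw [h5]
    have h7 : e.symm (algebraMap K _ c) = MvPolynomial.C c := by
      rw [AlgEquiv.commutes]; rfl
    change DN.snd (φ (e.symm _)) = 0
    rw [h7]
    simp [φ, DN.snd_inl]
  · intro i
    change DN.snd (h _) = w i
    have h5 := hcomm (e (MvPolynomial.X i))
    have h6 : ((e (MvPolynomial.X i) : Algebra.adjoin K (Set.range b)) : ℝ) = b i := by
      simp [e]
    rw [h6] at h5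
    rw [h5]
    change DN.snd (φ (e.symm _)) = w i
    rw [AlgEquiv.symm_apply_apply]
    simp [φ, DN.snd_mk]

theorem exists_derivations (S : Set ℝ) (hS : S.Countable) (m : ℕ) :
    ∃ (v : Fin m → ℝ) (D : Fin m → Derivation ℤ ℝ ℝ),
      (∀ k, ∀ s ∈ S, D k s = 0) ∧ ∀ k j, D k (v j) = if k = j then 1 else 0 := by
  let K := IntermediateField.adjoin ℚ S
  have hK : #K ≤ ℵ₀ := by
    refine (IntermediateField.cardinalMk_adjoin_le ℚ S).trans ?_
    simp [hS]
  obtain ⟨s, hs⟩ := exists_isTranscendenceBasis K ℝ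
  have hsinf : s.Infinite := by
    intro hfin
    have h1 := hs.isAlgebraic
    have h2 := Algebra.IsAlgebraic.cardinalMk_le_max
      (Algebra.adjoin K (Set.range (Subtype.val : s → ℝ))) ℝ
    have h3 := Algebra.cardinalMk_adjoin_le K (Set.range (Subtype.val : s → ℝ))
    have h4 : #(Set.range (Subtype.val : s → ℝ)) ≤ ℵ₀ := by
      rw [Subtype.range_coe]
      exact Cardinal.le_aleph0_iff_set_countable.2 hfin.countable
    have h5 : #ℝ ≤ ℵ₀ := by
      refine h2.trans (max_le (h3.trans ?_) le_rfl)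
      exact max_le (max_le hK h4) le_rfl
    rw [Cardinal.mk_real] at h5
    exact absurd h5 (not_le.2 Cardinal.aleph0_lt_continuum)
  have : Infinite s := hsinf.to_subtype
  let f : Fin m ↪ s := (Fin.valEmbedding).trans (Infinite.natEmbedding s)
  classical
  have key : ∀ k : Fin m, ∃ D : Derivation ℤ ℝ ℝ, (∀ c : K, D (algebraMap K ℝ c) = 0) ∧
      ∀ i : s, D (i : ℝ) = if i = f k then 1 else 0 := fun k =>
    exists_derivation_of_basis hs _
  choose D hD1 hD2 using key
  refine ⟨fun j => (f j : ℝ), D, ?_, ?_⟩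
  · intro k x hx
    exact hD1 k ⟨x, IntermediateField.subset_adjoin ℚ S hx⟩
  · intro k j
    rw [hD2]
    by_cases h : k = j
    · subst h; simp
    · rw [if_neg h, if_neg]
      intro h'
      exact h (f.injective h').symm


section


open MvPolynomial Finset

/-- base expansions determine the digits -/
theorem digits_inj {m : ℕ} {B : ℕ} (x y : Fin m → ℕ) (hx : ∀ k, x k < B) (hy : ∀ k, y k < B)
    (h : ∑ k, x k * B ^ (k : ℕ) = ∑ k, y k * B ^ (k : ℕ)) : x = y := by
  induction m with
  | zero => funext k; exact k.elim0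
  | succ m ih =>
    rw [Fin.sum_univ_succ, Fin.sum_univ_succ] at h
    have hB : 0 < B := lt_of_le_of_lt (Nat.zero_le _) (hx 0)
    have e : ∀ z : Fin (m + 1) → ℕ, ∑ k : Fin m, z k.succ * B ^ (k.succ : ℕ)
        = B * ∑ k : Fin m, z k.succ * B ^ (k : ℕ) := by
      intro z
      rw [Finset.mul_sum]
      apply Finset.sum_congr rfl
      intro k _
      rw [Fin.val_succ, pow_succ]; ring
    rw [e, e] at h
    simp only [Fin.val_zero, pow_zero, mul_one] at h
    have h0 : x 0 = y 0 := by
      have := congrArg (· % B) h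
      simpa [Nat.add_mul_mod_self_left, Nat.mod_eq_of_lt (hx 0), Nat.mod_eq_of_lt (hy 0)] using this
    have h1 : ∑ k : Fin m, x k.succ * B ^ (k : ℕ) = ∑ k : Fin m, y k.succ * B ^ (k : ℕ) := by
      rw [h0] at h
      exact Nat.eq_of_mul_eq_mul_left hB (Nat.add_left_cancel h)
    have h2 := ih (fun k => x k.succ) (fun k => y k.succ) (fun k => hx _) (fun k => hy _) h1
    funext k
    refine Fin.cases h0 (fun k => congrFun h2 k) k

theorem digits_lt {m : ℕ} {B : ℕ} (x : Fin m → ℕ) (hx : ∀ k, x k < B) :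
    ∑ k, x k * B ^ (k : ℕ) < B ^ m := by
  induction m with
  | zero => simp
  | succ m ih =>
    rw [Fin.sum_univ_castSucc, pow_succ]
    have h1 := ih (fun k => x k.castSucc) (fun k => hx _)
    simp only [Fin.val_castSucc, Fin.val_last] at h1 ⊢
    have h2 : (x (Fin.last m)) + 1 ≤ B := hx _
    calc _ < B ^ m + x (Fin.last m) * B ^ m := by omega
      _ = (x (Fin.last m) + 1) * B ^ m := by ring
      _ ≤ B * B ^ m := Nat.mul_le_mul_right _ h2
      _ = B ^ m * B := by ring

/-- a nontrivial linear equation over `ZMod p` has at most `p ^ (m-1)` solutions -/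
theorem card_linear {m : ℕ} {p : ℕ} [Fact p.Prime] (δ : Fin m → ZMod p) (j0 : Fin m)
    (h0 : δ j0 ≠ 0) :
    (univ.filter (fun r : Fin m → ZMod p => ∑ j, r j * δ j = 0)).card ≤ p ^ (m - 1) := by
  classical
  have hc : Fintype.card ({j : Fin m // j ≠ j0} → ZMod p) = p ^ (m - 1) := by
    rw [Fintype.card_fun, ZMod.card, Fintype.card_subtype_compl, Fintype.card_fin,
      Fintype.card_subtype_eq]
  rw [← hc, ← Finset.card_univ]
  apply Finset.card_le_card_of_injOn (fun r j => r j.1) (fun _ _ => Finset.mem_coe.2 (mem_univ _))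
  intro r hr s hs hrs
  simp only [coe_filter, mem_univ, true_and, Set.mem_ofPred_eq] at hr hs
  have hne : ∀ j, j ≠ j0 → r j = s j := fun j hj => congrFun hrs ⟨j, hj⟩
  have h1 : r j0 * δ j0 = s j0 * δ j0 := by
    rw [← Finset.add_sum_erase _ _ (mem_univ j0)] at hr hs
    have h2 : ∑ x ∈ univ.erase j0, r x * δ x = ∑ x ∈ univ.erase j0, s x * δ x :=
      Finset.sum_congr rfl fun x hx => by rw [hne x (Finset.ne_of_mem_erase hx)]
    rw [h2] at hr
    exact add_right_cancel (hr.trans hs.symm)
  funext j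
  by_cases hj : j = j0
  · rw [hj]; exact mul_right_cancel₀ h0 h1
  · exact hne j hj

/-- few distinct powers of a primitive `p`-th root of unity are linearly independent over `ℤ` -/
theorem sum_ne_zero {p : ℕ} [hp : Fact p.Prime] {ζ : ℂ} (hζ : IsPrimitiveRoot ζ p)
    {ι : Type*} (s : Finset ι) (hs : s.Nonempty) (c : ι → ℤ) (hc : ∀ i ∈ s, c i ≠ 0)
    (e : ι → ℕ) (he : ∀ i ∈ s, ∀ j ∈ s, (e i : ZMod p) = e j → i = j) (hcard : s.card < p) :
    ∑ i ∈ s, (c i : ℂ) * ζ ^ e i ≠ 0 := by
  classical
  intro h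
  let f : Polynomial ℚ := ∑ i ∈ s, Polynomial.C (c i : ℚ) * Polynomial.X ^ (e i % p)
  have hcoeff : ∀ n, f.coeff n = ∑ i ∈ s, if n = e i % p then (c i : ℚ) else 0 := by
    intro n
    simp [f, Polynomial.coeff_X_pow]
  have hdeg : ∀ n, p ≤ n → f.coeff n = 0 := by
    intro n hn
    rw [hcoeff]
    apply Finset.sum_eq_zero
    intro i _
    rw [if_neg]
    have := Nat.mod_lt (e i) hp.1.pos
    omega
  have hroot : Polynomial.aeval ζ f = 0 := by
    rw [← h]
    simp only [f, map_sum, map_mul, Polynomial.aeval_C, map_pow, Polynomial.aeval_X]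
    apply Finset.sum_congr rfl
    intro i _
    congr 1
    conv_rhs => rw [← Nat.mod_add_div (e i) p, pow_add, pow_mul, hζ.pow_eq_one, one_pow, mul_one]
  have hmin : Polynomial.cyclotomic p ℚ = minpoly ℚ ζ :=
    Polynomial.cyclotomic_eq_minpoly_rat hζ hp.1.pos
  have hdvd : Polynomial.cyclotomic p ℚ ∣ f := by
    rw [hmin]; exact minpoly.dvd ℚ ζ hroot
  obtain ⟨g, hg⟩ := hdvd
  have hf0 : f ≠ 0 := by
    obtain ⟨i0, hi0⟩ := hs
    intro hf
    have h1 := hcoeff (e i0 % p)
    rw [hf, Polynomial.coeff_zero, Finset.sum_eq_single i0] at h1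
    · simp only [if_true] at h1
      exact hc i0 hi0 (by exact_mod_cast h1.symm)
    · intro j hj hne
      rw [if_neg]
      intro h2
      apply hne
      apply he j hj i0 hi0
      rw [ZMod.natCast_eq_natCast_iff']
      exact h2.symm
    · intro h2; exact absurd hi0 h2
  have hfd : f.natDegree ≤ p - 1 := by
    rw [Polynomial.natDegree_le_iff_coeff_eq_zero]
    intro n hn
    exact hdeg n (by omega)
  have hcd : (Polynomial.cyclotomic p ℚ).natDegree = p - 1 := by
    rw [Polynomial.natDegree_cyclotomic, Nat.totient_prime hp.1]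
  have hg0 : g ≠ 0 := by
    rintro rfl
    rw [mul_zero] at hg
    exact hf0 hg
  have hgd : g.natDegree = 0 := by
    have := congrArg Polynomial.natDegree hg
    rw [Polynomial.natDegree_mul (Polynomial.cyclotomic_ne_zero _ _) hg0, hcd] at this
    omega
  obtain ⟨a, rfl⟩ : ∃ a, g = Polynomial.C a := ⟨_, Polynomial.eq_C_of_natDegree_eq_zero hgd⟩
  have ha : a ≠ 0 := by
    rintro rfl; exact hg0 (by simp)
  have hall : ∀ n < p, f.coeff n = a := by
    intro n hn
    rw [hg, Polynomial.coeff_mul_C, Polynomial.cyclotomic_prime, Polynomial.finsetSum_coeff]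
    simp [Polynomial.coeff_X_pow, hn]
  -- some residue is not hit
  obtain ⟨n, hn, hnot⟩ : ∃ n ∈ Finset.range p, n ∉ s.image (fun i => e i % p) := by
    by_contra hcon
    push Not at hcon
    have h1 : Finset.range p ⊆ s.image (fun i => e i % p) := fun n hn => hcon n hn
    have h2 := Finset.card_le_card h1
    rw [Finset.card_range] at h2
    exact absurd (h2.trans Finset.card_image_le) (not_le.2 hcard)
  have h3 := hall n (Finset.mem_range.1 hn)
  rw [hcoeff, Finset.sum_eq_zero] at h3
  · exact ha h3.symm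
  · intro i hi
    rw [if_neg]
    rintro rfl
    exact hnot (Finset.mem_image.2 ⟨i, hi, rfl⟩)


/-- A nonzero integer polynomial in `m * m` variables does not vanish at
`ζ ^ (r j * B ^ k)` for all but a small number of tuples `r`. -/
theorem bad_tuples {m : ℕ} (P : MvPolynomial (Fin m × Fin m) ℤ) (hP : P ≠ 0) :
    ∃ B K : ℕ, 2 ≤ B ∧ ∀ p : ℕ, ∀ _ : Fact p.Prime, K < p → B ^ m < p ∧
      ∀ ζ : ℂ, IsPrimitiveRoot ζ p →
      (univ.filter (fun r : Fin m → ZMod p =>
        MvPolynomial.aeval (fun q : Fin m × Fin m => ζ ^ ((r q.1).val * B ^ (q.2 : ℕ))) P = 0)).card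
        ≤ K * p ^ (m - 1) := by
  classical
  let D := P.totalDegree
  let B := D + 2
  let N := P.support.card
  refine ⟨B, N * N + B ^ m + N, by omega, ?_⟩
  intro p hp hpK
  have hBm : B ^ m < p := by omega
  refine ⟨hBm, ?_⟩
  intro ζ hζ
  -- digits of the exponent vectors
  have hdig : ∀ a ∈ P.support, ∀ q, a q < B := by
    intro a ha q
    have h1 : a q ≤ a.degree := Finsupp.le_degree q a
    have h2 : a.degree ≤ D := by
      have := MvPolynomial.le_totalDegree ha
      exact this
    omega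
  let ev : (Fin m × Fin m →₀ ℕ) → Fin m → ℕ := fun a j => ∑ k, a (j, k) * B ^ (k : ℕ)
  have hev : ∀ a ∈ P.support, ∀ b ∈ P.support, ev a = ev b → a = b := by
    intro a ha b hb hab
    ext ⟨j, k⟩
    have h1 := digits_inj (B := B) (fun k => a (j, k)) (fun k => b (j, k))
      (fun k => hdig a ha _) (fun k => hdig b hb _) (congrFun hab j)
    exact congrFun h1 k
  have hevlt : ∀ a ∈ P.support, ∀ j, ev a j < p := fun a ha j =>
    (digits_lt (fun k => a (j, k)) (fun k => hdig a ha _)).trans hBm
  -- the exponent of a monomial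
  let E : (Fin m → ZMod p) → (Fin m × Fin m →₀ ℕ) → ℕ := fun r a => ∑ j, (r j).val * ev a j
  have hval : ∀ r : Fin m → ZMod p,
      MvPolynomial.aeval (fun q : Fin m × Fin m => ζ ^ ((r q.1).val * B ^ (q.2 : ℕ))) P
        = ∑ a ∈ P.support, ((P.coeff a : ℤ) : ℂ) * ζ ^ E r a := by
    intro r
    rw [MvPolynomial.aeval_def, MvPolynomial.eval₂_eq']
    apply Finset.sum_congr rfl
    intro a _
    congr 1
    rw [Fintype.prod_prod_type]
    simp only [E, ev, ← pow_mul, Finset.prod_pow_eq_pow_sum]
    congr 1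
    apply Finset.sum_congr rfl
    intro j _
    rw [Finset.mul_sum]
    apply Finset.sum_congr rfl
    intro k _
    ring
  have hsub : (univ.filter (fun r : Fin m → ZMod p =>
        MvPolynomial.aeval (fun q : Fin m × Fin m => ζ ^ ((r q.1).val * B ^ (q.2 : ℕ))) P = 0))
      ⊆ (P.support ×ˢ P.support).biUnion (fun ab =>
        if ab.1 = ab.2 then ∅ else
        univ.filter (fun r : Fin m → ZMod p =>
          ∑ j, r j * ((ev ab.1 j : ZMod p) - (ev ab.2 j : ZMod p)) = 0)) := by
    intro r hr
    rw [Finset.mem_filter] at hr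
    by_contra hcon
    rw [Finset.mem_biUnion] at hcon
    push Not at hcon
    have hinj : ∀ a ∈ P.support, ∀ b ∈ P.support, (E r a : ZMod p) = E r b → a = b := by
      intro a ha b hb hab
      by_contra hne
      have := hcon (a, b) (Finset.mem_product.2 ⟨ha, hb⟩)
      rw [if_neg hne, Finset.mem_filter] at this
      apply this
      refine ⟨mem_univ _, ?_⟩
      simp only [mul_sub, Finset.sum_sub_distrib]
      rw [sub_eq_zero]
      simpa [E] using hab
    have hcard : P.support.card < p := by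
      change N < p
      omega
    have hne := sum_ne_zero hζ P.support (MvPolynomial.support_nonempty.2 hP) (fun a => P.coeff a)
      (fun a ha => MvPolynomial.mem_support_iff.1 ha) (E r) hinj hcard
    exact hne ((hval r).symm.trans hr.2)
  refine (Finset.card_le_card hsub).trans (Finset.card_biUnion_le.trans ?_)
  calc ∑ ab ∈ P.support ×ˢ P.support, (if ab.1 = ab.2 then (∅ : Finset (Fin m → ZMod p)) else
        univ.filter (fun r : Fin m → ZMod p =>
          ∑ j, r j * ((ev ab.1 j : ZMod p) - (ev ab.2 j : ZMod p)) = 0)).card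
      ≤ ∑ ab ∈ P.support ×ˢ P.support, p ^ (m - 1) := by
        apply Finset.sum_le_sum
        intro ab hab
        rw [Finset.mem_product] at hab
        split_ifs with h
        · simp
        · obtain ⟨j0, hj0⟩ : ∃ j, ev ab.1 j ≠ ev ab.2 j := by
            by_contra hc
            push Not at hc
            exact h (hev _ hab.1 _ hab.2 (funext hc))
          apply card_linear _ j0
          rw [sub_ne_zero]
          intro hcast
          apply hj0
          have := (ZMod.natCast_eq_natCast_iff' _ _ _).1 hcast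
          rwa [Nat.mod_eq_of_lt (hevlt _ hab.1 _), Nat.mod_eq_of_lt (hevlt _ hab.2 _)] at this
    _ = N * N * p ^ (m - 1) := by
        rw [Finset.sum_const, Finset.card_product, smul_eq_mul]
    _ ≤ _ := Nat.mul_le_mul_right _ (by omega)


end


/-- a shape is a list of pairs of pairs of indices; the head is the last step -/
abbrev Shape := List ((ℕ × ℕ) × (ℕ × ℕ))

/-- The vectors available after the steps of a shape, with parameters `a`. -/
def avail {K : Type} [CommRing K] (m : ℕ) (a : ℕ → K) : Shape → ℕ → Fin m → K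
  | [] => fun i k => if i = (k : ℕ) then 1 else 0
  | q :: σ => fun i k =>
    if i = m + 2 * σ.length then
      a (4 * σ.length) * avail m a σ q.1.1 k + a (4 * σ.length + 1) * avail m a σ q.1.2 k
    else if i = m + 2 * σ.length + 1 then
      a (4 * σ.length + 2) * avail m a σ q.2.1 k + a (4 * σ.length + 3) * avail m a σ q.2.2 k
    else avail m a σ i k

theorem avail_map {K L : Type} [CommRing K] [CommRing L] (θ : K →+* L) {m : ℕ} (a : ℕ → K)
    (σ : Shape) : ∀ (i : ℕ) (k : Fin m), θ (avail m a σ i k) = avail m (fun n => θ (a n)) σ i k := by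
  induction σ with
  | nil =>
    intro i k
    simp only [avail]
    split_ifs <;> simp
  | cons q σ ih =>
    intro i k
    simp only [avail]
    split_ifs
    · rw [map_add, map_mul, map_mul, ih, ih]
    · rw [map_add, map_mul, map_mul, ih, ih]
    · exact ih i k

theorem avail_congr {K : Type} [CommRing K] {m : ℕ} (a b : ℕ → K)
    (σ : Shape) (h : ∀ n < 4 * σ.length, a n = b n) :
    ∀ (i : ℕ) (k : Fin m), avail m a σ i k = avail m b σ i k := by
  induction σ with
  | nil => intro i k; rfl
  | cons q σ ih =>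
    intro i k
    have hl : (q :: σ).length = σ.length + 1 := rfl
    rw [hl] at h
    have ih' := ih (fun n hn => h n (by omega))
    simp only [avail]
    rw [ih', ih', ih', ih', ih', h _ (by omega), h _ (by omega), h _ (by omega), h _ (by omega)]

theorem avail_zero {K : Type} [CommRing K] {m : ℕ} (a : ℕ → K)
    (σ : Shape) : ∀ (i : ℕ) (k : Fin m), m + 2 * σ.length ≤ i → avail m a σ i k = 0 := by
  induction σ with
  | nil =>
    intro i k h
    simp only [avail]
    rw [if_neg]
    have := k.2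
    simp only [List.length_nil] at h
    omega
  | cons q σ ih =>
    intro i k h
    have hl : (q :: σ).length = σ.length + 1 := rfl
    rw [hl] at h
    simp only [avail]
    rw [if_neg (by omega), if_neg (by omega)]
    exact ih i k (by omega)

theorem dep_poly {m T : ℕ} (hT : 4 * T + 1 < m * m) (σ : Shape) (hσ : σ.length ≤ T)
    (o : Fin m → ℕ) :
    ∃ Q : MvPolynomial (Fin m × Fin m) ℤ, Q ≠ 0 ∧ ∀ (a : ℕ → ℂ) (c : ℂ),
      MvPolynomial.aeval (fun q : Fin m × Fin m => c * avail m a σ (o q.1) q.2) Q = 0 := by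
  let as : ℕ → MvPolynomial (Fin (4 * T + 1)) ℤ :=
    fun i => if h : i < 4 * T then MvPolynomial.X ⟨i, by omega⟩ else 0
  let cs : MvPolynomial (Fin (4 * T + 1)) ℤ := MvPolynomial.X ⟨4 * T, by omega⟩
  let M : Fin m × Fin m → MvPolynomial (Fin (4 * T + 1)) ℤ :=
    fun q => cs * avail m as σ (o q.1) q.2
  have hdep : ¬ AlgebraicIndependent ℤ M := by
    intro hM
    have h1 := hM.lift_cardinalMk_le_trdeg
    rw [MvPolynomial.trdeg_of_isDomain] at h1
    simp only [Cardinal.mk_fintype, Fintype.card_prod, Fintype.card_fin] at h1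
    simp only [Cardinal.lift_natCast, Nat.cast_le] at h1
    omega
  rw [algebraicIndependent_iff] at hdep
  push Not at hdep
  obtain ⟨Q, hQ, hQ0⟩ := hdep
  refine ⟨Q, hQ0, ?_⟩
  intro a c
  let θ : MvPolynomial (Fin (4 * T + 1)) ℤ →+* ℂ :=
    MvPolynomial.eval₂Hom (Int.castRingHom ℂ) (fun i => if i.val < 4 * T then a i.val else c)
  have h1 : θ (MvPolynomial.aeval M Q) = MvPolynomial.aeval (fun q => θ (M q)) Q := by
    rw [MvPolynomial.aeval_def, MvPolynomial.aeval_def, MvPolynomial.hom_eval₂]
    congr 1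
    exact RingHom.ext_int _ _
  have h2 : ∀ q, θ (M q) = c * avail m a σ (o q.1) q.2 := by
    intro q
    simp only [M, map_mul]
    congr 1
    · simp [θ, cs]
    · rw [avail_map]
      apply avail_congr
      intro n hn
      have hn' : n < 4 * T := by omega
      simp [as, hn', θ]
  rw [hQ, map_zero] at h1
  have h3 : (fun q : Fin m × Fin m => c * avail m a σ (o q.1) q.2) = fun q => θ (M q) :=
    funext fun q => (h2 q).symm
  rw [h3]
  exact h1.symm

theorem exists_poly (m T : ℕ) (hT : 4 * T + 1 < m * m) :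
    ∃ Q : MvPolynomial (Fin m × Fin m) ℤ, Q ≠ 0 ∧
      ∀ σ : Shape, σ.length ≤ T →
        (∀ q ∈ σ, q.1.1 ≤ m + 2 * T ∧ q.1.2 ≤ m + 2 * T ∧ q.2.1 ≤ m + 2 * T ∧ q.2.2 ≤ m + 2 * T) →
      ∀ o : Fin m → ℕ, (∀ j, o j ≤ m + 2 * T) → ∀ (a : ℕ → ℂ) (c : ℂ),
      MvPolynomial.aeval (fun q : Fin m × Fin m => c * avail m a σ (o q.1) q.2) Q = 0 := by
  classical
  let N := m + 2 * T + 1
  let F : Type := {l : List ((Fin N × Fin N) × (Fin N × Fin N)) // l.length ≤ T} × (Fin m → Fin N)
  have hfin : Finite {l : List ((Fin N × Fin N) × (Fin N × Fin N)) // l.length ≤ T} :=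
    (List.finite_length_le _ T).to_subtype
  have : Finite F := inferInstanceAs (Finite (_ × _))
  have := Fintype.ofFinite F
  let conv : ((Fin N × Fin N) × (Fin N × Fin N)) → ((ℕ × ℕ) × (ℕ × ℕ)) :=
    fun q => ((q.1.1, q.1.2), (q.2.1, q.2.2))
  have key : ∀ x : F, ∃ Q : MvPolynomial (Fin m × Fin m) ℤ, Q ≠ 0 ∧ ∀ (a : ℕ → ℂ) (c : ℂ),
      MvPolynomial.aeval (fun q : Fin m × Fin m =>
        c * avail m a (x.1.1.map conv) (x.2 q.1) q.2) Q = 0 := fun x =>
    dep_poly hT (x.1.1.map conv) (by rw [List.length_map]; exact x.1.2) (fun j => x.2 j)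
  choose Q hQ0 hQ using key
  refine ⟨∏ x, Q x, Finset.prod_ne_zero_iff.2 fun x _ => hQ0 x, ?_⟩
  intro σ hσ hσ' o ho a c
  -- find the code of the shape
  have hcode : ∀ τ : Shape,
      (∀ q ∈ τ, q.1.1 ≤ m + 2 * T ∧ q.1.2 ≤ m + 2 * T ∧ q.2.1 ≤ m + 2 * T ∧ q.2.2 ≤ m + 2 * T) →
      ∃ l : List ((Fin N × Fin N) × (Fin N × Fin N)), l.map conv = τ := by
    intro τ
    induction τ with
    | nil => intro _; exact ⟨[], rfl⟩
    | cons q τ ih =>
      intro h
      obtain ⟨l, hl⟩ := ih (fun q' hq' => h q' (List.mem_cons_of_mem _ hq'))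
      obtain ⟨h1, h2, h3, h4⟩ := h q List.mem_cons_self
      refine ⟨((⟨q.1.1, by omega⟩, ⟨q.1.2, by omega⟩), (⟨q.2.1, by omega⟩, ⟨q.2.2, by omega⟩)) :: l, ?_⟩
      rw [List.map_cons, hl]
  obtain ⟨l, hl⟩ := hcode σ hσ'
  have hlen : l.length ≤ T := by
    rw [← hl, List.length_map] at hσ; exact hσ
  let x : F := (⟨l, hlen⟩, fun j => ⟨o j, Nat.lt_succ_of_le (ho j)⟩)
  rw [map_prod]
  apply Finset.prod_eq_zero (Finset.mem_univ x)
  have := hQ x a c
  simp only [x, hl] at this
  exact this



/-- The arithmetic operations. -/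
inductive Arith
  | add | sub | mul | div

/-- Values of the arithmetic operations; as usual in Lean, dividing by zero returns zero. -/
noncomputable def Arith.eval : Arith → ℂ → ℂ → ℂ
  | .add, x, y => x + y
  | .sub, x, y => x - y
  | .mul, x, y => x * y
  | .div, x, y => x / y

/-- Programs on `m` complex inputs. A program works on a list of stored complex numbers, which at
the start holds the `m` inputs. It can

* `output out`: stop, and output the stored numbers at the positions `out 0, ..., out (m-1)`;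
* `load c rest`: append an arbitrary complex constant `c` to the list (powers of `ω` are a special
  case);
* `conj i rest`: append the complex conjugate of the stored number at position `i`;
* `arith op i j rest`: append the value of `+`, `-`, `*` or `/` on two stored numbers;
* `branch test next`: evaluate an arbitrary function `test` from lists of complex numbers to the
  natural numbers on the list of all stored numbers, and continue according to its value. -/
inductive Prog (m : ℕ) : Type
  | output (out : Fin m → ℕ) : Prog m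
  | load (c : ℂ) (rest : Prog m) : Prog m
  | conj (i : ℕ) (rest : Prog m) : Prog m
  | arith (op : Arith) (i j : ℕ) (rest : Prog m) : Prog m
  | branch (test : List ℂ → ℕ) (next : ℕ → Prog m) : Prog m

/-- The stored number at position `i` (zero if there is none). -/
noncomputable def get (s : List ℂ) (i : ℕ) : ℂ := s.getD i 0

/-- The output of a program started with the list `s` of stored numbers. -/
noncomputable def Prog.result {m : ℕ} : Prog m → List ℂ → Fin m → ℂ
  | .output out, s => fun j => get s (out j)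
  | .load c p, s => p.result (s ++ [c])
  | .conj i p, s => p.result (s ++ [starRingEnd ℂ (get s i)])
  | .arith op i j p, s => p.result (s ++ [op.eval (get s i) (get s j)])
  | .branch t p, s => (p (t s)).result s

/-- The number of arithmetic operations performed by a program started with the list `s`; all
other steps are free. -/
noncomputable def Prog.cost {m : ℕ} : Prog m → List ℂ → ℕ
  | .output _, _ => 0
  | .load c p, s => p.cost (s ++ [c])
  | .conj i p, s => p.cost (s ++ [starRingEnd ℂ (get s i)])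
  | .arith op i j p, s => p.cost (s ++ [op.eval (get s i) (get s j)]) + 1
  | .branch t p, s => (p (t s)).cost s

/-- the constants that occur in a program -/
def Prog.consts {m : ℕ} : Prog m → Set ℂ
  | .output _ => ∅
  | .load c p => insert c p.consts
  | .conj _ p => p.consts
  | .arith _ _ _ p => p.consts
  | .branch _ p => ⋃ n, (p n).consts

theorem Prog.countable_consts {m : ℕ} (p : Prog m) : p.consts.Countable := by
  induction p with
  | output _ => exact Set.countable_empty
  | load c p ih => exact ih.insert c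
  | conj _ p ih => exact ih
  | arith _ _ _ p ih => exact ih
  | branch _ p ih => exact Set.countable_iUnion ih


/-- The coordinatewise extension of a derivation of `ℝ` to `ℂ`. -/
noncomputable def cext (D : Derivation ℤ ℝ ℝ) : Derivation ℤ ℂ ℂ where
  toFun z := ⟨D z.re, D z.im⟩
  map_add' x y := by
    apply Complex.ext <;> simp
  map_smul' n x := by
    apply Complex.ext <;> simp
  map_one_eq_zero' := by
    apply Complex.ext <;> simp
  leibniz' x y := by
    apply Complex.ext
    · simp; ring
    · simp; ring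

theorem cext_conj (D : Derivation ℤ ℝ ℝ) (z : ℂ) :
    cext D (starRingEnd ℂ z) = starRingEnd ℂ (cext D z) := by
  apply Complex.ext
  · simp [cext]
  · simp [cext]

theorem cext_ofReal (D : Derivation ℤ ℝ ℝ) (x : ℝ) : cext D (x : ℂ) = (D x : ℂ) := by
  apply Complex.ext
  · simp [cext]
  · simp [cext]

theorem cext_zero (D : Derivation ℤ ℝ ℝ) (z : ℂ) (h1 : D z.re = 0) (h2 : D z.im = 0) :
    cext D z = 0 := by
  apply Complex.ext
  · simpa [cext] using h1
  · simpa [cext] using h2

/-- the coefficient of the first operand in the chain rule -/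
noncomputable def Arith.c1 : Arith → ℂ → ℂ → ℂ
  | .add, _, _ => 1
  | .sub, _, _ => 1
  | .mul, _, y => y
  | .div, _, y => y⁻¹

/-- the coefficient of the second operand in the chain rule -/
noncomputable def Arith.c2 : Arith → ℂ → ℂ → ℂ
  | .add, _, _ => 1
  | .sub, _, _ => -1
  | .mul, x, _ => x
  | .div, x, y => -(x * (y⁻¹ * y⁻¹))

theorem chain (D : Derivation ℤ ℂ ℂ) (op : Arith) (x y : ℂ) :
    D (op.eval x y) = op.c1 x y * D x + op.c2 x y * D y := by
  cases op with
  | add => simp [Arith.eval, Arith.c1, Arith.c2]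
  | sub => simp [Arith.eval, Arith.c1, Arith.c2, sub_eq_add_neg]
  | mul => simp [Arith.eval, Arith.c1, Arith.c2]; ring
  | div =>
    simp only [Arith.eval, Arith.c1, Arith.c2]
    by_cases hy : y = 0
    · subst hy; simp
    · rw [div_eq_mul_inv, Derivation.leibniz, Derivation.leibniz_inv]
      simp only [smul_eq_mul]
      field_simp
      ring

/-- the gradient vector -/
noncomputable def grad {m : ℕ} (D : Fin m → Derivation ℤ ℝ ℝ) (z : ℂ) (k : Fin m) : ℂ :=
  cext (D k) z

/-- All indices of a shape are at most `N`. -/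
def Bdd (σ : Shape) (N : ℕ) : Prop :=
  ∀ q ∈ σ, q.1.1 ≤ N ∧ q.1.2 ≤ N ∧ q.2.1 ≤ N ∧ q.2.2 ≤ N

theorem Bdd.mono {σ : Shape} {N M : ℕ} (h : Bdd σ N) (hNM : N ≤ M) : Bdd σ M := by
  intro q hq
  obtain ⟨h1, h2, h3, h4⟩ := h q hq
  exact ⟨h1.trans hNM, h2.trans hNM, h3.trans hNM, h4.trans hNM⟩

/-- The gradient of `z` and its conjugate are available. -/
def Has {m : ℕ} (D : Fin m → Derivation ℤ ℝ ℝ) (a : ℕ → ℂ) (σ : Shape) (z : ℂ) : Prop :=
  (∃ q ≤ m + 2 * σ.length, ∀ k, avail m a σ q k = grad D z k) ∧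
  (∃ q ≤ m + 2 * σ.length, ∀ k, avail m a σ q k = starRingEnd ℂ (grad D z k))

theorem has_of_grad_zero {m : ℕ} (D : Fin m → Derivation ℤ ℝ ℝ) (a : ℕ → ℂ) (σ : Shape) {z : ℂ}
    (h : ∀ k, grad D z k = 0) : Has D a σ z := by
  constructor
  · refine ⟨m + 2 * σ.length, le_rfl, fun k => ?_⟩
    rw [avail_zero _ _ _ _ le_rfl, h]
  · refine ⟨m + 2 * σ.length, le_rfl, fun k => ?_⟩
    rw [avail_zero _ _ _ _ le_rfl, h, map_zero]

theorem has_conj {m : ℕ} {D : Fin m → Derivation ℤ ℝ ℝ} {a : ℕ → ℂ} {σ : Shape} {z : ℂ}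
    (h : Has D a σ z) : Has D a σ (starRingEnd ℂ z) := by
  have e : ∀ k, grad D (starRingEnd ℂ z) k = starRingEnd ℂ (grad D z k) := fun k =>
    cext_conj _ _
  obtain ⟨⟨q, hq, h1⟩, ⟨q', hq', h2⟩⟩ := h
  constructor
  · exact ⟨q', hq', fun k => by rw [h2, e]⟩
  · exact ⟨q, hq, fun k => by rw [h1, e, Complex.conj_conj]⟩

theorem avail_old {m : ℕ} (a b : ℕ → ℂ) (σ : Shape) (x : (ℕ × ℕ) × (ℕ × ℕ))
    (hab : ∀ n < 4 * σ.length, a n = b n) {q : ℕ} (hq : q ≤ m + 2 * σ.length) :
    ∃ q' ≤ m + 2 * (x :: σ).length, ∀ k, avail m b (x :: σ) q' k = avail m a σ q k := by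
  have hl : (x :: σ).length = σ.length + 1 := rfl
  rcases Nat.lt_or_eq_of_le hq with h | h
  · refine ⟨q, by omega, fun k => ?_⟩
    simp only [avail]
    rw [if_neg (by omega), if_neg (by omega)]
    exact (avail_congr a b σ hab q k).symm
  · refine ⟨m + 2 * (x :: σ).length, le_rfl, fun k => ?_⟩
    rw [avail_zero _ _ _ _ le_rfl, avail_zero _ _ _ _ h.ge]

theorem get_append {s : List ℂ} {x : ℂ} (i : ℕ) :
    get (s ++ [x]) i = get s i ∨ get (s ++ [x]) i = x := by
  unfold get
  rcases lt_trichotomy i s.length with h | h | h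
  · left
    rw [List.getD_append _ _ _ _ h]
  · right
    rw [List.getD_append_right _ _ _ _ h.ge, h]; simp
  · left
    rw [List.getD_append_right _ _ _ _ h.le, List.getD_eq_default _ _ h.le,
      List.getD_eq_default]
    simp; omega

theorem simulate {m : ℕ} (D : Fin m → Derivation ℤ ℝ ℝ) (p : Prog m) :
    (∀ c ∈ p.consts, ∀ k, grad D c k = 0) →
    ∀ (s : List ℂ) (a : ℕ → ℂ) (σ : Shape), Bdd σ (m + 2 * σ.length) →
      (∀ i, Has D a σ (get s i)) →
    ∃ (b : ℕ → ℂ) (τ : Shape), τ.length = σ.length + p.cost s ∧ Bdd τ (m + 2 * τ.length) ∧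
      ∀ j, ∃ q ≤ m + 2 * τ.length, ∀ k, avail m b τ q k = grad D (p.result s j) k := by
  induction p with
  | output out =>
    intro _ s a σ hσ hs
    exact ⟨a, σ, rfl, hσ, fun j => (hs (out j)).1⟩
  | load c p ih =>
    intro hc s a σ hσ hs
    apply ih (fun c' hc' => hc c' (Set.mem_insert_of_mem _ hc')) _ a σ hσ
    intro i
    rcases get_append (s := s) (x := c) i with h | h
    · rw [h]; exact hs i
    · rw [h]; exact has_of_grad_zero D a σ (hc c (Set.mem_insert _ _))
  | conj l p ih =>
    intro hc s a σ hσ hs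
    apply ih hc _ a σ hσ
    intro i
    rcases get_append (s := s) (x := starRingEnd ℂ (get s l)) i with h | h
    · rw [h]; exact hs i
    · rw [h]; exact has_conj (hs l)
  | arith op l r p ih =>
    intro hc s a σ hσ hs
    obtain ⟨⟨ql, hql, hl⟩, ⟨ql', hql', hl'⟩⟩ := hs l
    obtain ⟨⟨qr, hqr, hr⟩, ⟨qr', hqr', hr'⟩⟩ := hs r
    let x := get s l
    let y := get s r
    let n := σ.length
    let b : ℕ → ℂ := fun t => if t < 4 * n then a t else
      if t = 4 * n then op.c1 x y else if t = 4 * n + 1 then op.c2 x y else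
      if t = 4 * n + 2 then starRingEnd ℂ (op.c1 x y) else starRingEnd ℂ (op.c2 x y)
    have hb : ∀ t < 4 * σ.length, a t = b t := by
      intro t ht
      simp only [b, n]
      rw [if_pos ht]
    let X : (ℕ × ℕ) × (ℕ × ℕ) := ((ql, qr), (ql', qr'))
    have hlen : (X :: σ).length = σ.length + 1 := rfl
    obtain ⟨c, τ, h1, h2, h3⟩ := ih hc (s ++ [op.eval (get s l) (get s r)]) b (X :: σ) (by
      rw [hlen]
      intro q hq
      rcases List.mem_cons.1 hq with h | h
      · subst h
        simp only [X]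
        omega
      · obtain ⟨g1, g2, g3, g4⟩ := hσ q h
        omega) (by
      intro i
      rcases get_append (s := s) (x := op.eval (get s l) (get s r)) i with h | h
      · rw [h]
        obtain ⟨⟨q, hq, h1⟩, ⟨q', hq', h2⟩⟩ := hs i
        obtain ⟨t, ht, h3⟩ := avail_old a b σ X hb hq
        obtain ⟨t', ht', h4⟩ := avail_old a b σ X hb hq'
        exact ⟨⟨t, ht, fun k => by rw [h3, h1]⟩, ⟨t', ht', fun k => by rw [h4, h2]⟩⟩
      · rw [h]
        constructor
        · refine ⟨m + 2 * σ.length, by omega, fun k => ?_⟩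
          simp only [avail]
          rw [if_true, ← avail_congr a b σ hb, ← avail_congr a b σ hb]
          simp only [X]
          rw [hl, hr]
          unfold grad
          rw [chain]
          congr 2
          · simp [b, n, x, y]
          · simp [b, n, x, y]
        · refine ⟨m + 2 * σ.length + 1, by omega, fun k => ?_⟩
          simp only [avail]
          rw [if_neg (by omega), if_true, ← avail_congr a b σ hb, ← avail_congr a b σ hb]
          simp only [X]
          rw [hl', hr']
          unfold grad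
          rw [chain, map_add, map_mul, map_mul]
          congr 2
          · simp [b, n, x, y]
          · simp [b, n, x, y])
    refine ⟨c, τ, ?_, h2, h3⟩
    rw [h1, hlen]
    simp only [Prog.cost]
    omega
  | branch t p ih =>
    intro hc s a σ hσ hs
    exact ih (t s) (fun c hc' => hc c (Set.mem_iUnion.2 ⟨_, hc'⟩)) s a σ hσ hs

theorem simulate_start {m : ℕ} (D : Fin m → Derivation ℤ ℝ ℝ) (v : Fin m → ℝ)
    (hD : ∀ k j, D k (v j) = if k = j then 1 else 0) (p : Prog m)
    (hc : ∀ c ∈ p.consts, ∀ k, grad D c k = 0) (X : Matrix (Fin m) (Fin m) ℂ)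
    (hX : ∀ j k l, grad D (X j k) l = 0)
    (hp : p.result (List.ofFn (fun j => (v j : ℂ))) = X.mulVec (fun j => (v j : ℂ))) :
    ∃ (a : ℕ → ℂ) (σ : Shape) (o : Fin m → ℕ),
      σ.length = p.cost (List.ofFn (fun j => (v j : ℂ))) ∧
      Bdd σ (m + 2 * σ.length) ∧ (∀ j, o j ≤ m + 2 * σ.length) ∧
      ∀ j k, avail m a σ (o j) k = X j k := by
  have h0 : ∀ i, Has D (fun _ => 0) [] (get (List.ofFn (fun j => (v j : ℂ))) i) := by
    intro i
    unfold get
    by_cases hi : i < m
    · have e : (List.ofFn (fun j => (v j : ℂ))).getD i 0 = (v ⟨i, hi⟩ : ℂ) := by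
        rw [List.getD_eq_getElem _ _ (by simpa using hi)]
        simp
      rw [e]
      have hg : ∀ k, grad D (v ⟨i, hi⟩ : ℂ) k = if k = ⟨i, hi⟩ then 1 else 0 := by
        intro k
        unfold grad
        rw [cext_ofReal, hD]
        split_ifs <;> simp
      constructor
      · refine ⟨i, by omega, fun k => ?_⟩
        rw [hg]
        simp only [avail]
        by_cases h : i = (k : ℕ)
        · rw [if_pos h, if_pos (Fin.ext h.symm)]
        · rw [if_neg h, if_neg (fun h' => h (by rw [h']))]
      · refine ⟨i, by omega, fun k => ?_⟩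
        rw [hg]
        simp only [avail]
        by_cases h : i = (k : ℕ)
        · rw [if_pos h, if_pos (Fin.ext h.symm)]; simp
        · rw [if_neg h, if_neg (fun h' => h (by rw [h']))]; simp
    · rw [List.getD_eq_default _ _ (by simpa using hi)]
      apply has_of_grad_zero
      intro k
      unfold grad
      rw [map_zero]
  obtain ⟨b, τ, h1, h2, h3⟩ := simulate D p hc _ (fun _ => 0) [] (by intro q hq; cases hq) h0
  choose o ho1 ho2 using h3
  refine ⟨b, τ, o, by simpa using h1, h2, ho1, ?_⟩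
  intro j k
  rw [ho2, hp]
  unfold grad Matrix.mulVec dotProduct
  rw [map_sum]
  have : ∀ l, cext (D k) (X j l * (v l : ℂ)) = if k = l then X j l else 0 := by
    intro l
    rw [Derivation.leibniz, cext_ofReal, hD]
    have := hX j l k
    unfold grad at this
    rw [this]
    split_ifs <;> simp
  simp [this]


/-! ### The model -/

/-- `ω = exp (-2 π i / d)`. -/
noncomputable def omega (d : ℕ) : ℂ := Complex.exp (-(2 * Real.pi * Complex.I) / d)

/-- The discrete Fourier matrix, `F j k = d ^ (-1/2) * ω ^ (j * k)`. -/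
noncomputable def dft (d : ℕ) : Matrix (Fin d) (Fin d) ℂ :=
  fun j k => ((Real.sqrt d : ℝ) : ℂ)⁻¹ * omega d ^ ((j : ℕ) * (k : ℕ))

/-- The submatrix with row set `R` and column set `C`, both in increasing order. -/
noncomputable def subDft {d m : ℕ} (R C : Finset (Fin d)) (hR : R.card = m) (hC : C.card = m) :
    Matrix (Fin m) (Fin m) ℂ :=
  (dft d).submatrix (R.orderEmbOfFin hR) (C.orderEmbOfFin hC)

/-- Algorithms for the task, in a nonuniform sense: for each `d`, `m` and all sets `R`, `C` of
rows and columns an arbitrary program, such that the output is `F_{RC} v` for every vector `v`. -/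
structure Algorithm where
  prog : (d m : ℕ) → (R C : Finset (Fin d)) → Prog m
  correct : ∀ (d m : ℕ) (R C : Finset (Fin d)) (hR : R.card = m) (hC : C.card = m)
    (v : Fin m → ℂ), (prog d m R C).result (List.ofFn v) = (subDft R C hR hC).mulVec v

/-- The running time on the input `R`, `C`, `v`: the number of arithmetic operations. -/
noncomputable def Algorithm.time (A : Algorithm) {d m : ℕ} (R C : Finset (Fin d))
    (v : Fin m → ℂ) : ℕ :=
  (A.prog d m R C).cost (List.ofFn v)

/-- The `m`-element subsets of `{0, ..., d-1}`, the possible row sets. -/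
def rowSets (d m : ℕ) : Finset (Finset (Fin d)) := Finset.univ.filter (fun R => R.card = m)

theorem omega_prim {d : ℕ} (hd : d ≠ 0) : IsPrimitiveRoot (omega d) d := by
  have h := (Complex.isPrimitiveRoot_exp d hd).inv
  have e : omega d = (Complex.exp (2 * Real.pi * Complex.I / d))⁻¹ := by
    unfold omega
    rw [← Complex.exp_neg, neg_div]
  rw [e]; exact h

theorem subDft_apply {d m : ℕ} (R C : Finset (Fin d)) (hR : R.card = m) (hC : C.card = m)
    (j k : Fin m) : subDft R C hR hC j k = ((Real.sqrt d : ℝ) : ℂ)⁻¹ *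
      omega d ^ ((R.orderEmbOfFin hR j : ℕ) * (C.orderEmbOfFin hC k : ℕ)) := rfl

theorem grad_smallset {m : ℕ} (D : Fin m → Derivation ℤ ℝ ℝ) {S : Set ℂ}
    (h : ∀ k, ∀ s ∈ Complex.re '' S ∪ Complex.im '' S, D k s = 0) :
    ∀ c ∈ S, ∀ k, grad D c k = 0 := by
  intro c hc k
  exact cext_zero _ _ (h k _ (Or.inl ⟨c, hc, rfl⟩)) (h k _ (Or.inr ⟨c, hc, rfl⟩))

/-- everything that the algorithm and the matrices contain -/
def allConsts (A : Algorithm) (m : ℕ) : Set ℂ :=
  ⋃ d : ℕ, ((⋃ R : Finset (Fin d), ⋃ C : Finset (Fin d), (A.prog d m R C).consts) ∪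
    ⋃ j : Fin d, ⋃ k : Fin d, {dft d j k})

theorem countable_allConsts (A : Algorithm) (m : ℕ) : (allConsts A m).Countable := by
  unfold allConsts
  refine Set.countable_iUnion fun d => ?_
  refine Set.Countable.union ?_ ?_
  · exact Set.countable_iUnion fun R => Set.countable_iUnion fun C => Prog.countable_consts _
  · exact Set.countable_iUnion fun j => Set.countable_iUnion fun k => Set.countable_singleton _

theorem exists_generic (A : Algorithm) (m : ℕ) : ∃ v : Fin m → ℝ,
    ∀ (d : ℕ) (R C : Finset (Fin d)) (hR : R.card = m) (hC : C.card = m),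
      ∃ (a : ℕ → ℂ) (σ : Shape) (o : Fin m → ℕ),
      σ.length = A.time R C (fun j => (v j : ℂ)) ∧
      Bdd σ (m + 2 * σ.length) ∧ (∀ j, o j ≤ m + 2 * σ.length) ∧
      ∀ j k, avail m a σ (o j) k = subDft R C hR hC j k := by
  have hS := countable_allConsts A m
  obtain ⟨v, D, h1, h2⟩ := exists_derivations
    (Complex.re '' (allConsts A m) ∪ Complex.im '' (allConsts A m))
    ((hS.image _).union (hS.image _)) m
  have h3 := grad_smallset D h1
  refine ⟨v, ?_⟩
  intro d R C hR hC
  apply simulate_start D v h2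
  · intro c hc
    apply h3
    refine Set.mem_iUnion.2 ⟨d, Or.inl ?_⟩
    exact Set.mem_iUnion.2 ⟨R, Set.mem_iUnion.2 ⟨C, hc⟩⟩
  · intro j k l
    apply h3
    refine Set.mem_iUnion.2 ⟨d, Or.inr ?_⟩
    exact Set.mem_iUnion.2 ⟨_, Set.mem_iUnion.2 ⟨_, rfl⟩⟩
  · exact A.correct d m R C hR hC _

theorem count_fast (A : Algorithm) (m : ℕ) : ∃ (v : Fin m → ℝ) (K : ℕ), ∀ d : ℕ,
    d.Prime → K < d → ∃ C : Finset (Fin d), C.card = m ∧
      ((rowSets d m).filter
        (fun R => 4 * A.time R C (fun j => (v j : ℂ)) + 1 < m * m)).card ≤ K * d ^ (m - 1) := by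
  classical
  obtain ⟨v, hv⟩ := exists_generic A m
  by_cases hm : m ≤ 1
  · refine ⟨v, m, fun d _ hKd => ?_⟩
    obtain ⟨C, -, hC⟩ := Finset.exists_subset_card_eq
      (s := (Finset.univ : Finset (Fin d))) (n := m) (by simpa using hKd.le)
    refine ⟨C, hC, ?_⟩
    rw [Finset.filter_false_of_mem]
    · simp
    · intro R _
      have : m * m ≤ 1 := by
        calc m * m ≤ 1 * 1 := Nat.mul_le_mul hm hm
          _ = 1 := rfl
      omega
  · push Not at hm
    have hmm : 4 ≤ m * m := by
      calc 4 = 2 * 2 := rfl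
        _ ≤ m * m := Nat.mul_le_mul hm hm
    let T := (m * m - 2) / 4
    have hT : 4 * T + 1 < m * m := by omega
    obtain ⟨Q, hQ0, hQ⟩ := exists_poly m T hT
    obtain ⟨B, K, hB, hBK⟩ := bad_tuples Q hQ0
    refine ⟨v, K, fun d hd hKd => ?_⟩
    have : Fact d.Prime := ⟨hd⟩
    obtain ⟨hBm, hcount⟩ := hBK d ⟨hd⟩ hKd
    have hcount := hcount (omega d) (omega_prim hd.ne_zero)
    have hlt : ∀ k : Fin m, B ^ (k : ℕ) < d := fun k =>
      lt_of_le_of_lt (Nat.pow_le_pow_right (by omega) k.2.le) hBm
    let g : Fin m → Fin d := fun k => ⟨B ^ (k : ℕ), hlt k⟩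
    have hg : StrictMono g := by
      intro k l hkl
      exact Nat.pow_lt_pow_right (by omega) hkl
    let C : Finset (Fin d) := Finset.univ.image g
    have hC : C.card = m := by
      rw [Finset.card_image_of_injective _ hg.injective]; simp
    have hCemb : ∀ k, C.orderEmbOfFin hC k = g k := by
      intro k
      have := Finset.orderEmbOfFin_unique hC (f := g)
        (fun x => Finset.mem_image_of_mem g (Finset.mem_univ x)) hg
      rw [this]
    refine ⟨C, hC, ?_⟩
    refine le_trans ?_ hcount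
    let e : Finset (Fin d) → Fin m → ZMod d := fun R j =>
      if h : R.card = m then ((R.orderEmbOfFin h j : ℕ) : ZMod d) else 0
    have hval : ∀ (R : Finset (Fin d)) (h : R.card = m) (j : Fin m),
        (e R j).val = (R.orderEmbOfFin h j : ℕ) := by
      intro R h j
      simp only [e, dif_pos h]
      rw [ZMod.val_natCast, Nat.mod_eq_of_lt (Fin.is_lt _)]
    apply Finset.card_le_card_of_injOn e
    · intro R hR
      simp only [Finset.coe_filter, rowSets, Finset.mem_filter, Finset.mem_univ, true_and,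
        Set.mem_ofPred_eq] at hR
      obtain ⟨hR, hfast⟩ := hR
      simp only [Finset.coe_filter, Finset.mem_univ, true_and, Set.mem_ofPred_eq]
      obtain ⟨a, σ, o, h1, h2, h3, h4⟩ := hv d R C hR hC
      have hle : σ.length ≤ T := by
        rw [h1]; omega
      have h5 := hQ σ hle (h2.mono (by omega)) o (fun j => (h3 j).trans (by omega)) a
        ((Real.sqrt d : ℝ) : ℂ)
      have h6 : (fun q : Fin m × Fin m => omega d ^ ((e R q.1).val * B ^ (q.2 : ℕ)))
          = fun q : Fin m × Fin m => ((Real.sqrt d : ℝ) : ℂ) * avail m a σ (o q.1) q.2 := by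
        funext q
        rw [h4, hval R hR]
        rw [subDft_apply, hCemb]
        have hs : ((Real.sqrt d : ℝ) : ℂ) ≠ 0 := by
          have h0 : (0 : ℝ) < d := by exact_mod_cast hd.pos
          exact_mod_cast (Real.sqrt_pos.2 h0).ne'
        rw [← mul_assoc, mul_inv_cancel₀ hs, one_mul]
      rw [h6]
      exact h5
    · intro R hR R' hR' hee
      simp only [Finset.coe_filter, rowSets, Finset.mem_filter, Finset.mem_univ, true_and,
        Set.mem_ofPred_eq] at hR hR'
      have h1 : ∀ j, R.orderEmbOfFin hR.1 j = R'.orderEmbOfFin hR'.1 j := by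
        intro j
        apply Fin.ext
        rw [← hval R hR.1, ← hval R' hR'.1, hee]
      have h2 : Set.range (R.orderEmbOfFin hR.1) = Set.range (R'.orderEmbOfFin hR'.1) := by
        congr 1
        funext j; exact h1 j
      rw [Finset.range_orderEmbOfFin, Finset.range_orderEmbOfFin] at h2
      exact_mod_cast h2


/-! ### The naive algorithm: the structure `Algorithm` is inhabited -/

theorem get_append_left {s t : List ℂ} {i : ℕ} (h : i < s.length) :
    get (s ++ t) i = get s i := by
  unfold get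
  rw [List.getD_append _ _ _ _ h]

theorem get_append_last {s : List ℂ} {x : ℂ} {i : ℕ} (h : s.length = i) :
    get (s ++ [x]) i = x := by
  unfold get
  rw [List.getD_append_right _ _ _ _ h.le, h]; simp

theorem exists_row {m : ℕ} (w : Fin m → ℂ) (ks : List (Fin m)) :
    ∀ (L acc : ℕ), m ≤ L → acc < L → ∀ P : ℕ → ℕ → Prog m, ∃ (q : Prog m) (acc' L' : ℕ),
      acc' < L' ∧ L ≤ L' ∧ ∀ s : List ℂ, s.length = L → ∃ t : List ℂ, (s ++ t).length = L' ∧
        get (s ++ t) acc' = get s acc + (ks.map (fun k => w k * get s k)).sum ∧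
        q.result s = (P acc' L').result (s ++ t) := by
  induction ks with
  | nil =>
    intro L acc hL hacc P
    refine ⟨P acc L, acc, L, hacc, le_rfl, fun s hs => ⟨[], by simpa using hs, by simp, by simp⟩⟩
  | cons k ks ih =>
    intro L acc hL hacc P
    obtain ⟨q, acc', L', h1, h2, h3⟩ := ih (L + 3) (L + 2) (by omega) (by omega) P
    refine ⟨.load (w k) (.arith .mul L k (.arith .add acc (L + 1) q)), acc', L', h1, by omega, ?_⟩
    intro s hs
    let s1 := s ++ [w k]
    let s2 := s1 ++ [w k * get s k]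
    let s3 := s2 ++ [get s acc + w k * get s k]
    have l1 : s1.length = L + 1 := by simp [s1, hs]
    have l2 : s2.length = L + 2 := by simp [s2, l1]
    have l3 : s3.length = L + 3 := by simp [s3, l2]
    obtain ⟨t, h4, h5, h6⟩ := h3 s3 l3
    have hk : (k : ℕ) < L := lt_of_lt_of_le k.2 hL
    have g1 : get s1 L = w k := get_append_last hs
    have g2 : get s1 k = get s k := get_append_left (by omega)
    have g3 : get s2 acc = get s acc := by
      rw [get_append_left (by omega), get_append_left (by omega)]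
    have g4 : get s2 (L + 1) = w k * get s k := get_append_last l1
    have g5 : get s3 (L + 2) = get s acc + w k * get s k := get_append_last l2
    refine ⟨[w k, w k * get s k, get s acc + w k * get s k] ++ t, ?_, ?_, ?_⟩
    · rw [← h4]; simp [s3, s2, s1]
    · have e : s ++ ([w k, w k * get s k, get s acc + w k * get s k] ++ t) = s3 ++ t := by
        simp [s3, s2, s1]
      rw [e, h5, g5, List.map_cons, List.sum_cons, add_assoc]
      congr 3
      apply List.map_congr_left
      intro l _
      have hl : (l : ℕ) < L := lt_of_lt_of_le l.2 hL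
      rw [get_append_left (by omega), get_append_left (by omega), get_append_left (by omega)]
    · have e : s ++ ([w k, w k * get s k, get s acc + w k * get s k] ++ t) = s3 ++ t := by
        simp [s3, s2, s1]
      rw [e, ← h6]
      simp only [Prog.result]
      change q.result ((s1 ++ [Arith.mul.eval (get s1 L) (get s1 k)]) ++ _) = _
      rw [g1, g2]
      change q.result (s2 ++ [Arith.add.eval (get s2 acc) (get s2 (L + 1))]) = _
      rw [g3, g4]
      rfl

theorem exists_rows {m : ℕ} (W : ℕ → Fin m → ℂ) (n : ℕ) :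
    ∀ (L : ℕ), m ≤ L → ∀ P : (ℕ → ℕ) → Prog m, ∃ (q : Prog m) (o : ℕ → ℕ),
      ∀ s : List ℂ, s.length = L → ∃ t : List ℂ,
        (∀ j < n, get (s ++ t) (o j) = ∑ k, W j k * get s k) ∧
        q.result s = (P o).result (s ++ t) := by
  induction n with
  | zero =>
    intro L hL P
    exact ⟨P id, id, fun s _ => ⟨[], fun j hj => absurd hj (Nat.not_lt_zero _), by simp⟩⟩
  | succ n ih =>
    intro L hL P
    -- the row `n` is computed first, then the others
    have key : ∀ acc' L' : ℕ, ∃ (q : Prog m) (o : ℕ → ℕ), m ≤ L' →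
      ∀ s : List ℂ, s.length = L' → ∃ t : List ℂ,
        (∀ j < n, get (s ++ t) (o j) = ∑ k, W j k * get s k) ∧
        q.result s = (P (Function.update o n acc')).result (s ++ t) := by
      intro acc' L'
      by_cases h : m ≤ L'
      · obtain ⟨q, o, ho⟩ := ih L' h (fun o => P (Function.update o n acc'))
        exact ⟨q, o, fun _ => ho⟩
      · exact ⟨P id, id, fun h' => absurd h' h⟩
    choose q o hq using key
    obtain ⟨r, acc', L', h1, h2, h3⟩ := exists_row (W n) (List.finRange m) (L + 1) L (by omega)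
      (by omega) (fun a l => q a l)
    refine ⟨.load 0 r, Function.update (o acc' L') n acc', ?_⟩
    intro s hs
    obtain ⟨t, h4, h5, h6⟩ := h3 (s ++ [0]) (by simp [hs])
    obtain ⟨t', h7, h8⟩ := hq acc' L' (by omega) ((s ++ [0]) ++ t) h4
    refine ⟨[0] ++ t ++ t', ?_, ?_⟩
    · intro j hj
      have e : s ++ ([0] ++ t ++ t') = (s ++ [0]) ++ t ++ t' := by simp
      have hk : ∀ k : Fin m, get ((s ++ [0]) ++ t) k = get s k := by
        intro k
        have hk : (k : ℕ) < s.length := by rw [hs]; exact lt_of_lt_of_le k.2 hL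
        rw [get_append_left (by simp; omega), get_append_left hk]
      rw [e]
      by_cases hjn : j = n
      · subst hjn
        rw [Function.update_self, get_append_left (by omega), h5, get_append_last hs, zero_add]
        have : ∀ k : Fin m, get (s ++ [0]) k = get s k := by
          intro k
          have hk : (k : ℕ) < s.length := by rw [hs]; exact lt_of_lt_of_le k.2 hL
          rw [get_append_left hk]
        simp only [this]
        rw [Fin.sum_univ_def]
      · rw [Function.update_of_ne hjn, h7 j (by omega)]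
        simp only [hk]
    · have e : s ++ ([0] ++ t ++ t') = (s ++ [0]) ++ t ++ t' := by simp
      rw [e, ← h8, ← h6]
      rfl

theorem exists_prog {m : ℕ} (X : Matrix (Fin m) (Fin m) ℂ) :
    ∃ p : Prog m, ∀ v : Fin m → ℂ, p.result (List.ofFn v) = X.mulVec v := by
  obtain ⟨q, o, h⟩ := exists_rows (fun j k => if h : j < m then X ⟨j, h⟩ k else 0) m m le_rfl
    (fun o => .output (fun j => o j))
  refine ⟨q, fun v => ?_⟩
  obtain ⟨t, h1, h2⟩ := h (List.ofFn v) (by simp)
  rw [h2]
  funext j
  simp only [Prog.result]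
  rw [h1 j j.2]
  unfold Matrix.mulVec dotProduct
  apply Finset.sum_congr rfl
  intro k _
  have : get (List.ofFn v) k = v k := by
    unfold get
    rw [List.getD_eq_getElem _ _ (by simp)]
    simp
  rw [this]
  simp

/-- There are algorithms in the sense of the structure `Algorithm`. -/
theorem nonempty_algorithm : Nonempty Algorithm := by
  classical
  choose p hp using fun (m : ℕ) (X : Matrix (Fin m) (Fin m) ℂ) => exists_prog X
  refine ⟨⟨fun d m R C => if h : R.card = m ∧ C.card = m then p m (subDft R C h.1 h.2)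
    else .output (fun _ => 0), ?_⟩⟩
  intro d m R C hR hC v
  rw [dif_pos ⟨hR, hC⟩, hp]


open Filter Topology Asymptotics

theorem card_rowSets (d m : ℕ) : (rowSets d m).card = d.choose m := by
  classical
  have : rowSets d m = (Finset.univ : Finset (Fin d)).powersetCard m := by
    ext R
    simp [rowSets, Finset.mem_powersetCard]
  rw [this, Finset.card_powersetCard]
  simp

theorem choose_large (m K : ℕ) (hm : 1 ≤ m) (ε : ℝ) (hε : 0 < ε) :
    ∀ᶠ d : ℕ in atTop, ((K * d ^ (m - 1) : ℕ) : ℝ) ≤ ε * (d.choose m : ℝ) := by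
  obtain ⟨N, hN⟩ := exists_nat_ge ((K : ℝ) * 2 ^ m * (m.factorial : ℝ) / ε)
  filter_upwards [eventually_ge_atTop (N + 2 * m)] with d hd
  have h1 : ((d + 1 - m : ℕ) ^ m : ℝ) / m.factorial ≤ d.choose m := Nat.pow_le_choose m d
  have h2 : (d : ℝ) / 2 ≤ ((d + 1 - m : ℕ) : ℝ) := by
    rw [Nat.cast_sub (by omega)]
    push_cast
    have : ((N + 2 * m : ℕ) : ℝ) ≤ d := by exact_mod_cast hd
    push_cast at this
    have hN0 : (0 : ℝ) ≤ N := Nat.cast_nonneg _
    linarith
  have hf : (0 : ℝ) < m.factorial := by exact_mod_cast m.factorial_pos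
  have h3 : ((d : ℝ) / 2) ^ m / m.factorial ≤ d.choose m := by
    refine le_trans ?_ h1
    have h0 : (0 : ℝ) ≤ (d : ℝ) / 2 := by positivity
    gcongr
  have hNd : (K : ℝ) * 2 ^ m * (m.factorial : ℝ) / ε ≤ d := by
    refine hN.trans ?_
    exact_mod_cast (by omega : N ≤ d)
  rw [div_le_iff₀ hε] at hNd
  have h4 : (d : ℝ) ^ m = d * (d : ℝ) ^ (m - 1) := by
    rw [← pow_succ']
    congr 1
    omega
  calc ((K * d ^ (m - 1) : ℕ) : ℝ) = (K : ℝ) * (d : ℝ) ^ (m - 1) := by push_cast; ring
    _ ≤ ε * (((d : ℝ) / 2) ^ m / m.factorial) := by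
        rw [div_pow, div_div, mul_div_assoc', le_div_iff₀ (by positivity), h4]
        have h5 : (0 : ℝ) ≤ (d : ℝ) ^ (m - 1) := by positivity
        calc (K : ℝ) * (d : ℝ) ^ (m - 1) * (2 ^ m * (m.factorial : ℝ))
            = (K : ℝ) * 2 ^ m * (m.factorial : ℝ) * (d : ℝ) ^ (m - 1) := by ring
          _ ≤ d * ε * (d : ℝ) ^ (m - 1) := by gcongr
          _ = ε * (d * (d : ℝ) ^ (m - 1)) := by ring
    _ ≤ ε * (d.choose m : ℝ) := by gcongr

/-- The quantitative statement. -/
theorem main_bound (A : Algorithm) (m : ℕ) (hm : 1 ≤ m) (ε : ℝ) (hε : 0 < ε) :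
    ∀ᶠ d : ℕ in atTop, d.Prime → ∃ C : Finset (Fin d), C.card = m ∧ ∃ v : Fin m → ℂ,
      (((rowSets d m).filter (fun R => 4 * A.time R C v + 1 < m * m)).card : ℝ)
        ≤ ε * ((rowSets d m).card : ℝ) := by
  obtain ⟨v, K, h⟩ := count_fast A m
  filter_upwards [choose_large m K hm ε hε, eventually_gt_atTop K] with d hd hK hp
  obtain ⟨C, hC, h1⟩ := h d hp hK
  refine ⟨C, hC, fun j => (v j : ℂ), ?_⟩
  rw [card_rowSets]
  refine le_trans ?_ hd
  exact_mod_cast h1

/-- a prime instance with at most half of the row sets fast -/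
theorem half_bound (A : Algorithm) (m : ℕ) (hm : 1 ≤ m) :
    ∃ d : ℕ, m ≤ d ∧ ∃ C : Finset (Fin d), C.card = m ∧ ∃ v : Fin m → ℂ,
      (((rowSets d m).filter (fun R => 4 * A.time R C v + 1 < m * m)).card : ℝ)
        ≤ (1 / 2) * ((rowSets d m).card : ℝ) := by
  have h1 := main_bound A m hm (1 / 2) (by norm_num)
  rw [eventually_atTop] at h1
  obtain ⟨N, hN⟩ := h1
  obtain ⟨d, hd, hp⟩ := Nat.exists_infinite_primes (N + m)
  obtain ⟨C, hC, v, h2⟩ := hN d (by omega) hp
  exact ⟨d, by omega, C, hC, v, h2⟩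

theorem rowSets_pos {d m : ℕ} (h : m ≤ d) : (0 : ℝ) < ((rowSets d m).card : ℝ) := by
  rw [card_rowSets]
  exact_mod_cast Nat.choose_pos h

/-- Let `A` be any algorithm that always outputs `F_{RC} v`.
* For every `m ≥ 1` and `ε > 0`, and all large primes `d`, there are `C` and `v` such that for all
  but a fraction `ε` of the row sets `R` the algorithm performs at least `(m ^ 2 - 1) / 4`
  arithmetic operations.
* There is no `f = o(m ^ 2)` that bounds the expected running time over `R` for all `d ≥ m`, `C`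
  and `v`.
* There is no `f = o(m ^ 2)` that bounds the running time with probability `1 - o(1)` over `R`
  for all `d ≥ m`, `C` and `v`. -/
theorem result (A : Algorithm) :
    (∀ m : ℕ, 1 ≤ m → ∀ ε : ℝ, 0 < ε → ∀ᶠ d : ℕ in atTop, d.Prime →
      ∃ C : Finset (Fin d), C.card = m ∧ ∃ v : Fin m → ℂ,
        (((rowSets d m).filter (fun R => 4 * A.time R C v + 1 < m * m)).card : ℝ)
          ≤ ε * ((rowSets d m).card : ℝ)) ∧
    (¬ ∃ f : ℕ → ℝ, f =o[atTop] (fun m : ℕ => (m : ℝ) ^ 2) ∧
      ∀ᶠ m : ℕ in atTop, ∀ d : ℕ, m ≤ d → ∀ C : Finset (Fin d), C.card = m →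
        ∀ v : Fin m → ℂ,
          (∑ R ∈ rowSets d m, (A.time R C v : ℝ)) / ((rowSets d m).card : ℝ) ≤ f m) ∧
    (¬ ∃ f δ : ℕ → ℝ, f =o[atTop] (fun m : ℕ => (m : ℝ) ^ 2) ∧ Tendsto δ atTop (𝓝 0) ∧
      ∀ᶠ m : ℕ in atTop, ∀ d : ℕ, m ≤ d → ∀ C : Finset (Fin d), C.card = m →
        ∀ v : Fin m → ℂ,
          (1 - δ m) * ((rowSets d m).card : ℝ) ≤
            (((rowSets d m).filter (fun R => (A.time R C v : ℝ) ≤ f m)).card : ℝ)) := by
  refine ⟨main_bound A, ?_, ?_⟩
  · rintro ⟨f, hf, h⟩
    have h1 := hf.def (c := 1 / 32) (by norm_num)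
    obtain ⟨m, hm1, hm2, hm3⟩ := (h.and (h1.and (eventually_ge_atTop 2))).exists
    obtain ⟨d, hd, C, hC, v, hb⟩ := half_bound A m (by omega)
    have hm4 := hm1 d hd C hC v
    have hpos := rowSets_pos hd
    rw [div_le_iff₀ hpos] at hm4
    -- lower bound for the sum
    have hsplit : (∑ R ∈ rowSets d m, (A.time R C v : ℝ)) ≥
        ∑ R ∈ (rowSets d m).filter (fun R => ¬ (4 * A.time R C v + 1 < m * m)),
          (((m : ℝ) ^ 2 - 1) / 4) := by
      calc ∑ R ∈ (rowSets d m).filter (fun R => ¬ (4 * A.time R C v + 1 < m * m)),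
            (((m : ℝ) ^ 2 - 1) / 4)
          ≤ ∑ R ∈ (rowSets d m).filter (fun R => ¬ (4 * A.time R C v + 1 < m * m)),
            (A.time R C v : ℝ) := by
              apply Finset.sum_le_sum
              intro R hR
              have := (Finset.mem_filter.1 hR).2
              push Not at this
              have h5 : ((m * m : ℕ) : ℝ) ≤ ((4 * A.time R C v + 1 : ℕ) : ℝ) := by
                exact_mod_cast this
              push_cast at h5
              nlinarith
        _ ≤ _ := Finset.sum_le_sum_of_subset_of_nonneg (Finset.filter_subset _ _)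
              (fun _ _ _ => Nat.cast_nonneg _)
    rw [Finset.sum_const, nsmul_eq_mul] at hsplit
    have hcards : (((rowSets d m).filter (fun R => 4 * A.time R C v + 1 < m * m)).card : ℝ) +
        (((rowSets d m).filter (fun R => ¬ (4 * A.time R C v + 1 < m * m))).card : ℝ) =
          ((rowSets d m).card : ℝ) := by
      exact_mod_cast Finset.card_filter_add_card_filter_not _
    rw [Real.norm_eq_abs, Real.norm_eq_abs, abs_of_nonneg (by positivity : (0:ℝ) ≤ (m:ℝ)^2)] at hm2
    have hfm : f m ≤ 1 / 32 * (m : ℝ) ^ 2 := (le_abs_self _).trans hm2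
    have hm5 : (2 : ℝ) ≤ m := by exact_mod_cast hm3
    have hm6 : (4 : ℝ) ≤ (m : ℝ) ^ 2 := by nlinarith
    have h7 : (1 / 2) * ((rowSets d m).card : ℝ) ≤
        (((rowSets d m).filter (fun R => ¬ (4 * A.time R C v + 1 < m * m))).card : ℝ) := by
      linarith
    have h8 : (1 / 2) * ((rowSets d m).card : ℝ) * (((m : ℝ) ^ 2 - 1) / 4) ≤
        f m * ((rowSets d m).card : ℝ) := by
      refine le_trans ?_ (hsplit.le.trans hm4)
      apply mul_le_mul_of_nonneg_right h7
      linarith
    have h9 : f m * ((rowSets d m).card : ℝ) ≤ 1 / 32 * (m : ℝ) ^ 2 * ((rowSets d m).card : ℝ) :=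
      mul_le_mul_of_nonneg_right hfm hpos.le
    have h10 : (1 / 2) * (((m : ℝ) ^ 2 - 1) / 4) ≤ 1 / 32 * (m : ℝ) ^ 2 := by
      have h11 := h8.trans h9
      have h12 : ((1 / 2) * (((m : ℝ) ^ 2 - 1) / 4)) * ((rowSets d m).card : ℝ) ≤
          (1 / 32 * (m : ℝ) ^ 2) * ((rowSets d m).card : ℝ) := by linarith
      exact le_of_mul_le_mul_right h12 hpos
    linarith
  · rintro ⟨f, δ, hf, hδ, h⟩
    have h1 := hf.def (c := 1 / 8) (by norm_num)
    have h2 : ∀ᶠ m in atTop, δ m < 1 / 2 :=
      hδ.eventually (gt_mem_nhds (by norm_num))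
    obtain ⟨m, hm1, hm2, hm3, hm0⟩ := (h.and (h1.and (h2.and (eventually_ge_atTop 2)))).exists
    obtain ⟨d, hd, C, hC, v, hb⟩ := half_bound A m (by omega)
    have hm4 := hm1 d hd C hC v
    have hpos := rowSets_pos hd
    rw [Real.norm_eq_abs, Real.norm_eq_abs, abs_of_nonneg (by positivity : (0:ℝ) ≤ (m:ℝ)^2)] at hm2
    have hfm : f m ≤ 1 / 8 * (m : ℝ) ^ 2 := (le_abs_self _).trans hm2
    have hm5 : (2 : ℝ) ≤ m := by exact_mod_cast hm0
    have hm6 : (4 : ℝ) ≤ (m : ℝ) ^ 2 := by nlinarith
    have hsub : (rowSets d m).filter (fun R => (A.time R C v : ℝ) ≤ f m) ⊆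
        (rowSets d m).filter (fun R => 4 * A.time R C v + 1 < m * m) := by
      intro R hR
      rw [Finset.mem_filter] at hR ⊢
      refine ⟨hR.1, ?_⟩
      have h5 : (A.time R C v : ℝ) ≤ 1 / 8 * (m : ℝ) ^ 2 := hR.2.trans hfm
      have h6 : ((4 * A.time R C v + 1 : ℕ) : ℝ) < ((m * m : ℕ) : ℝ) := by
        push_cast
        nlinarith
      exact_mod_cast h6
    have h7 : (((rowSets d m).filter (fun R => (A.time R C v : ℝ) ≤ f m)).card : ℝ) ≤
        (((rowSets d m).filter (fun R => 4 * A.time R C v + 1 < m * m)).card : ℝ) := by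
      exact_mod_cast Finset.card_le_card hsub
    have h8 : (1 - δ m) * ((rowSets d m).card : ℝ) ≤ (1 / 2) * ((rowSets d m).card : ℝ) :=
      hm4.trans (h7.trans hb)
    have h9 : 1 - δ m ≤ 1 / 2 := le_of_mul_le_mul_right h8 hpos
    linarith


end Pool.Agent.Results.MP_a662a5_lc.QuadraticLowerBound
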